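import Pool.Agent.W98.RB.Defs

set_option autoImplicit false

open MeasureTheory Set Filter Topology
open scoped ENNReal NNReal Pointwise

/-! RB-HAUS: one-dimensional Hausdorff measure of the graph of the profile. -/

namespace Pool.Agent.W349.RB

open Pool.Agent.W98.RB

lemma dist_pt (x y x' y' : ℝ) :
    dist (pt x y) (pt x' y') = Real.sqrt ((x - x') ^ 2 + (y - y') ^ 2) := by
  unfold pt
  rw [EuclideanSpace.dist_eq]
  simp [Fin.sum_univ_two, Real.dist_eq, sq_abs]

lemma gam_cont (H₀ L w : ℝ) : Continuous (fun x => pt x (prof H₀ L w x)) := by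
  unfold pt prof
  refine (PiLp.continuous_toLp 2 _).comp (continuous_pi fun i => ?_)
  fin_cases i
  · simp only [Fin.zero_eta, Matrix.cons_val_zero]
    exact continuous_id
  · simp only [Fin.mk_one, Matrix.cons_val_one, Matrix.cons_val_fin_one]
    fun_prop

lemma gam_inj (H₀ L w : ℝ) : Function.Injective (fun x => pt x (prof H₀ L w x)) := by
  intro x y h
  have : pt x (prof H₀ L w x) 0 = pt y (prof H₀ L w y) 0 := by
    simp only at h; rw [h]
  simpa [pt] using this

lemma line_isom (a b : ℝ) :
    Isometry (fun t : ℝ => pt (t / Real.sqrt (1 + a ^ 2)) (a * (t / Real.sqrt (1 + a ^ 2)) + b)) := by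
  refine Isometry.of_dist_eq fun t t' => ?_
  have hc : 0 < 1 + a ^ 2 := by positivity
  have hc2 := Real.sq_sqrt hc.le
  have hc3 : 0 < Real.sqrt (1 + a ^ 2) := Real.sqrt_pos.2 hc
  rw [dist_pt, Real.dist_eq, ← Real.sqrt_sq_eq_abs]
  congr 1
  set c := Real.sqrt (1 + a ^ 2) with hcdef
  have h1 : (t / c - t' / c) ^ 2 + (a * (t / c) + b - (a * (t' / c) + b)) ^ 2 =
      (t - t') ^ 2 * (1 + a ^ 2) / c ^ 2 := by
    field_simp
    ring
  rw [h1, hc2]
  field_simp

lemma meas_affine (a b : ℝ) (E : Set ℝ) :
    (Measure.hausdorffMeasure (1 : ℝ) : Measure (EuclideanSpace ℝ (Fin 2)))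
      ((fun x => pt x (a * x + b)) '' E) = ENNReal.ofReal (Real.sqrt (1 + a ^ 2)) * volume E := by
  have hc : 0 < 1 + a ^ 2 := by positivity
  have hc3 : 0 < Real.sqrt (1 + a ^ 2) := Real.sqrt_pos.2 hc
  have h1 : (fun x => pt x (a * x + b)) '' E =
      (fun t : ℝ => pt (t / Real.sqrt (1 + a ^ 2)) (a * (t / Real.sqrt (1 + a ^ 2)) + b)) ''
        (Real.sqrt (1 + a ^ 2) • E) := by
    rw [← image_smul, image_image]
    refine image_congr fun x _ => ?_
    simp only [smul_eq_mul]
    rw [mul_div_cancel_left₀ _ hc3.ne']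
  rw [h1, (line_isom a b).hausdorffMeasure_image (Or.inl zero_le_one), hausdorffMeasure_real,
    Measure.addHaar_smul]
  simp [abs_of_pos hc3]

lemma piece (H₀ L w : ℝ) (P : Set ℝ) (hP : MeasurableSet P) (a b : ℝ)
    (h1 : ∀ x ∈ P, prof H₀ L w x = a * x + b)
    (h2 : ∀ x ∈ P, surfp H₀ L w x = Real.sqrt (1 + a ^ 2)) :
    (Measure.comap (fun x => pt x (prof H₀ L w x))
      (Measure.hausdorffMeasure (1 : ℝ) : Measure (EuclideanSpace ℝ (Fin 2)))).restrict P =
    (volume.withDensity fun x => ENNReal.ofReal (surfp H₀ L w x)).restrict P := by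
  have hemb := (gam_cont H₀ L w).measurableEmbedding (gam_inj H₀ L w)
  refine Measure.ext fun B hB => ?_
  rw [Measure.restrict_apply hB, Measure.restrict_apply hB, hemb.comap_apply,
    withDensity_apply _ (hB.inter hP)]
  have e1 : (fun x => pt x (prof H₀ L w x)) '' (B ∩ P) = (fun x => pt x (a * x + b)) '' (B ∩ P) :=
    image_congr fun x hx => by rw [h1 x hx.2]
  have e2 : ∫⁻ x in B ∩ P, ENNReal.ofReal (surfp H₀ L w x) =
      ∫⁻ _ in B ∩ P, ENNReal.ofReal (Real.sqrt (1 + a ^ 2)) := by
    refine setLIntegral_congr_fun (hB.inter hP) fun x hx => ?_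
    rw [h2 x hx.2]
  rw [e1, e2, meas_affine, setLIntegral_const]

theorem T_HAUS : S_HAUS := by
  intro H₀ L w hH hL hw
  have hemb := (gam_cont H₀ L w).measurableEmbedding (gam_inj H₀ L w)
  rw [← hemb.map_comap]
  congr 1
  have hq : 0 < H₀ / L := div_pos hH hL
  have hqL : L * (H₀ / L) = H₀ := by field_simp
  set Ps : Fin 4 → Set ℝ := ![{x | w ≤ |x|}, {x | |x| ≤ w - H₀ / L},
    {x | w - H₀ / L < x ∧ x < w}, {x | w - H₀ / L < -x ∧ -x < w}] with hPs
  refine Measure.ext_of_iUnion_eq_univ (s := Ps) ?_ ?_
  · rw [eq_univ_iff_forall]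
    intro x
    rw [mem_iUnion]
    rcases le_or_gt w |x| with h | h
    · exact ⟨0, h⟩
    rcases le_or_gt |x| (w - H₀ / L) with h' | h'
    · exact ⟨1, h'⟩
    rcases le_or_gt 0 x with h'' | h''
    · rw [abs_of_nonneg h''] at h h'
      exact ⟨2, h', h⟩
    · rw [abs_of_neg h''] at h h'
      exact ⟨3, h', h⟩
  · intro i
    fin_cases i
    · refine piece H₀ L w _ ?_ 0 0 (fun x hx => ?_) fun x hx => ?_
      · exact measurableSet_le measurable_const measurable_id.abs
      · replace hx : w ≤ |x| := hx
        unfold prof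
        have h1 : 0 ≤ L * (|x| - w) := mul_nonneg hL.le (by linarith)
        rw [min_eq_left h1, max_eq_right (by linarith)]
        ring
      · replace hx : w ≤ |x| := hx
        unfold surfp
        rw [if_neg (fun h => absurd h.2 (not_lt.2 hx))]
        simp
    · refine piece H₀ L w _ ?_ 0 (-H₀) (fun x hx => ?_) fun x hx => ?_
      · exact measurableSet_le measurable_id.abs measurable_const
      · replace hx : |x| ≤ w - H₀ / L := hx
        unfold prof
        have h1 : L * (|x| - w) ≤ -H₀ := by nlinarith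
        rw [min_eq_right (by linarith), max_eq_left h1]
        ring
      · replace hx : |x| ≤ w - H₀ / L := hx
        unfold surfp
        rw [if_neg (fun h => absurd h.1 (not_lt.2 hx))]
        simp
    · refine piece H₀ L w _ ?_ L (-(L * w)) (fun x hx => ?_) fun x hx => ?_
      · exact (measurableSet_lt measurable_const measurable_id).inter
          (measurableSet_lt measurable_id measurable_const)
      · replace hx : w - H₀ / L < x ∧ x < w := hx
        unfold prof
        have h0 : 0 < x := by linarith [hx.1]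
        rw [abs_of_pos h0]
        have h1 : -H₀ ≤ L * (x - w) := by nlinarith [hx.1]
        have h2 : L * (x - w) ≤ 0 := by nlinarith [hx.2]
        rw [min_eq_right h2, max_eq_right h1]
        ring
      · replace hx : w - H₀ / L < x ∧ x < w := hx
        unfold surfp
        have h0 : 0 < x := by linarith [hx.1]
        rw [if_pos (by rw [abs_of_pos h0]; exact hx)]
    · refine piece H₀ L w _ ?_ (-L) (-(L * w)) (fun x hx => ?_) fun x hx => ?_
      · exact (measurableSet_lt measurable_const measurable_id.neg).inter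
          (measurableSet_lt measurable_id.neg measurable_const)
      · replace hx : w - H₀ / L < -x ∧ -x < w := hx
        unfold prof
        have h0 : x < 0 := by linarith [hx.1]
        rw [abs_of_neg h0]
        have h1 : -H₀ ≤ L * (-x - w) := by nlinarith [hx.1]
        have h2 : L * (-x - w) ≤ 0 := by nlinarith [hx.2]
        rw [min_eq_right h2, max_eq_right h1]
        ring
      · replace hx : w - H₀ / L < -x ∧ -x < w := hx
        unfold surfp
        have h0 : x < 0 := by linarith [hx.1]
        rw [if_pos (by rw [abs_of_neg h0]; exact hx)]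
        congr 1
        ring

end Pool.Agent.W349.RB
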