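import Pool.Agent.W98.RB.Defs

set_option autoImplicit false

open MeasureTheory Set Filter Topology
open scoped ENNReal NNReal

/-! RB-SEL: selection of a box and a subsequence. -/

namespace Pool.Agent.W349.RB

open Pool.Agent.W98.RB

lemma dx_cont (v : ℝ × ℝ → ℝ) (hv : ContDiff ℝ 1 v) : Continuous (dx v) := by
  unfold dx
  exact (hv.continuous_fderiv one_ne_zero).clm_apply continuous_const

lemma dy_cont (v : ℝ × ℝ → ℝ) (hv : ContDiff ℝ 1 v) : Continuous (dy v) := by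
  unfold dy
  exact (hv.continuous_fderiv one_ne_zero).clm_apply continuous_const

lemma EL_le_add (ϕ : ℝ → ℝ) (x₀ y₀ L : ℝ) (a b a' b' A B : ℝ × ℝ → ℝ) (ρ : ℝ)
    (ha : Measurable a) (hb : Measurable b) (h1 : ∀ p, ‖A p‖ₑ ≤ ‖a p‖ₑ + ‖a' p‖ₑ)
    (h2 : ∀ p, ‖B p‖ₑ ≤ ‖b p‖ₑ + ‖b' p‖ₑ) :
    EL ϕ x₀ y₀ L A B ρ ≤ EL ϕ x₀ y₀ L a b ρ + EL ϕ x₀ y₀ L a' b' ρ := by
  have e1 : (∫⁻ y in Ioo (ϕ (x₀ - ρ)) (y₀ + L * ρ), ‖B (x₀ - ρ, y)‖ₑ) ≤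
      (∫⁻ y in Ioo (ϕ (x₀ - ρ)) (y₀ + L * ρ), ‖b (x₀ - ρ, y)‖ₑ) +
      (∫⁻ y in Ioo (ϕ (x₀ - ρ)) (y₀ + L * ρ), ‖b' (x₀ - ρ, y)‖ₑ) := by
    rw [← lintegral_add_left (by fun_prop)]
    exact lintegral_mono fun y => h2 _
  have e2 : (∫⁻ x in Ioo (x₀ - ρ) (x₀ + ρ), ‖A (x, y₀ + L * ρ)‖ₑ) ≤
      (∫⁻ x in Ioo (x₀ - ρ) (x₀ + ρ), ‖a (x, y₀ + L * ρ)‖ₑ) +
      (∫⁻ x in Ioo (x₀ - ρ) (x₀ + ρ), ‖a' (x, y₀ + L * ρ)‖ₑ) := by
    rw [← lintegral_add_left (by fun_prop)]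
    exact lintegral_mono fun y => h1 _
  have e3 : (∫⁻ y in Ioo (ϕ (x₀ + ρ)) (y₀ + L * ρ), ‖B (x₀ + ρ, y)‖ₑ) ≤
      (∫⁻ y in Ioo (ϕ (x₀ + ρ)) (y₀ + L * ρ), ‖b (x₀ + ρ, y)‖ₑ) +
      (∫⁻ y in Ioo (ϕ (x₀ + ρ)) (y₀ + L * ρ), ‖b' (x₀ + ρ, y)‖ₑ) := by
    rw [← lintegral_add_left (by fun_prop)]
    exact lintegral_mono fun y => h2 _
  unfold EL
  calc _ ≤ _ := add_le_add (add_le_add e1 e2) e3
    _ = _ := by ring

/-- the box is in a ball -/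
lemma Bx_sub (x₀ y₀ L ρ : ℝ) (hL : 1 ≤ L) (hρ : 0 < ρ) :
    Bx x₀ y₀ L ρ ⊆ Metric.ball 0 (|x₀| + |y₀| + L * ρ) := by
  rintro ⟨x, y⟩ ⟨h1, h2⟩
  simp only at h1 h2
  rw [mem_ball_zero_iff, Prod.norm_def, max_lt_iff, Real.norm_eq_abs, Real.norm_eq_abs]
  have h3 : |x| ≤ |x - x₀| + |x₀| := by
    have := abs_add_le (x - x₀) x₀
    simpa using this
  have h4 : |y| ≤ |y - y₀| + |y₀| := by
    have := abs_add_le (y - y₀) y₀
    simpa using this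
  have h5 := abs_nonneg x₀
  have h6 := abs_nonneg y₀
  constructor
  · simp only; nlinarith
  · simp only; linarith

/-- `L²` convergence on balls gives `L¹` convergence on the box -/
lemma l1_of_l2 (ϕ : ℝ → ℝ) (f : ℕ → ℝ × ℝ → ℝ) (hf : ∀ k, Measurable (f k)) (R : ℝ)
    (S : Set (ℝ × ℝ)) (hS : S ⊆ Metric.ball 0 R)
    (h : Tendsto (fun k => eLpNorm (f k) 2 (volume.restrict (Om ϕ ∩ Metric.ball 0 R)))
      atTop (𝓝 0)) :
    Tendsto (fun k => ∫⁻ p in Om ϕ ∩ S, ‖f k p‖ₑ) atTop (𝓝 0) := by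
  set μ := (volume : Measure (ℝ × ℝ)).restrict (Om ϕ ∩ Metric.ball 0 R) with hμ
  have hfin : μ univ ≠ ⊤ := by
    rw [hμ, Measure.restrict_apply_univ]
    exact ((measure_mono inter_subset_right).trans_lt measure_ball_lt_top).ne
  have h1 : ∀ k, ∫⁻ p in Om ϕ ∩ S, ‖f k p‖ₑ ≤
      eLpNorm (f k) 2 μ * μ univ ^ (1 / (1 : ℝ≥0∞).toReal - 1 / (2 : ℝ≥0∞).toReal) := by
    intro k
    calc ∫⁻ p in Om ϕ ∩ S, ‖f k p‖ₑ ≤ ∫⁻ p, ‖f k p‖ₑ ∂μ :=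
          lintegral_mono_set (inter_subset_inter_right _ hS)
      _ = eLpNorm (f k) 1 μ := eLpNorm_one_eq_lintegral_enorm.symm
      _ ≤ _ := eLpNorm_le_eLpNorm_mul_rpow_measure_univ (by norm_num)
          (hf k).aestronglyMeasurable
  have hexp : (1 / (1 : ℝ≥0∞).toReal - 1 / (2 : ℝ≥0∞).toReal) = 1 / 2 := by norm_num
  rw [hexp] at h1
  have hc : μ univ ^ (1 / 2 : ℝ) ≠ ⊤ := ENNReal.rpow_ne_top_of_nonneg (by norm_num) hfin
  have h2 : Tendsto (fun k => eLpNorm (f k) 2 μ * μ univ ^ (1 / 2 : ℝ)) atTop (𝓝 0) := by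
    have := ENNReal.Tendsto.mul_const h (Or.inr hc)
    rwa [zero_mul] at this
  exact tendsto_of_tendsto_of_tendsto_of_le_of_le tendsto_const_nhds h2 (fun _ => zero_le) h1

/-- the gradient is square integrable on the box -/
lemma grad_l2 (ϕ : ℝ → ℝ) (w : ℕ → ℝ × ℝ → ℝ) (hw : ∀ k, Continuous (w k)) (G : ℝ × ℝ → ℝ)
    (hG : Measurable G) (R : ℝ) (S : Set (ℝ × ℝ)) (hS : S ⊆ Metric.ball 0 R)
    (h : Tendsto (fun k => eLpNorm (fun p => w k p - G p) 2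
      (volume.restrict (Om ϕ ∩ Metric.ball 0 R))) atTop (𝓝 0)) :
    ∫⁻ p in Om ϕ ∩ S, ‖G p‖ₑ ^ 2 ≠ ⊤ := by
  set μ := (volume : Measure (ℝ × ℝ)).restrict (Om ϕ ∩ Metric.ball 0 R) with hμ
  have hfin : μ univ < ⊤ := by
    rw [hμ, Measure.restrict_apply_univ]
    exact ((measure_mono inter_subset_right).trans_lt measure_ball_lt_top)
  haveI : IsFiniteMeasure μ := ⟨hfin⟩
  obtain ⟨k, hk⟩ := (h.eventually (gt_mem_nhds (zero_lt_one))).exists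
  have h1 : MemLp (fun p => w k p - G p) 2 μ :=
    ⟨((hw k).measurable.sub hG).aestronglyMeasurable, hk.trans ENNReal.one_lt_top⟩
  obtain ⟨C, hC⟩ := (isCompact_closedBall (0 : ℝ × ℝ) R).exists_bound_of_continuousOn
    (hw k).continuousOn
  have h2 : MemLp (w k) 2 μ := by
    refine MemLp.of_bound (hw k).aestronglyMeasurable C ?_
    rw [hμ]
    have : ∀ᵐ p ∂((volume : Measure (ℝ × ℝ)).restrict (Metric.ball 0 R)), ‖w k p‖ ≤ C := by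
      filter_upwards [ae_restrict_mem Metric.isOpen_ball.measurableSet] with p hp
      exact hC p (Metric.ball_subset_closedBall hp)
    exact ae_mono (Measure.restrict_mono inter_subset_right le_rfl) this
  have h3 : MemLp G 2 μ := by
    have := h2.sub h1
    refine this.congr_norm hG.aestronglyMeasurable (Eventually.of_forall fun p => ?_)
    simp
  have h4 := h3.eLpNorm_lt_top
  rw [eLpNorm_lt_top_iff_lintegral_rpow_enorm_lt_top (by norm_num) (by norm_num)] at h4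
  have h5 : ∫⁻ p in Om ϕ ∩ S, ‖G p‖ₑ ^ 2 ≤ ∫⁻ p, ‖G p‖ₑ ^ (2 : ℝ≥0∞).toReal ∂μ := by
    calc ∫⁻ p in Om ϕ ∩ S, ‖G p‖ₑ ^ 2 ≤ ∫⁻ p, ‖G p‖ₑ ^ 2 ∂μ :=
          lintegral_mono_set (inter_subset_inter_right _ hS)
      _ = _ := by
          refine lintegral_congr fun p => ?_
          rw [ENNReal.toReal_ofNat, ← ENNReal.rpow_natCast]
          norm_num
  exact (h5.trans_lt h4).ne

theorem T_SEL (hP : S_PATH) (hT : S_TON) (hC : S_CL) : S_SEL := by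
  intro ϕ K hϕ u Gx Gy T v hA hu x₀ ε ρ₀ hε hρ₀
  set L : ℝ := (K : ℝ) + 1 with hL
  have hL1 : 1 ≤ L := by rw [hL]; linarith [K.coe_nonneg]
  set S := Bx x₀ (ϕ x₀) L ρ₀ with hS
  set R := |x₀| + |ϕ x₀| + L * ρ₀ with hR
  have hSR : S ⊆ Metric.ball 0 R := Bx_sub x₀ (ϕ x₀) L ρ₀ hL1 hρ₀
  have mv : ∀ k, Measurable (v k) := fun k => (hA.c1 k).continuous.measurable
  have mdx : ∀ k, Measurable (dx (v k)) := fun k => (dx_cont _ (hA.c1 k)).measurable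
  have mdy : ∀ k, Measurable (dy (v k)) := fun k => (dy_cont _ (hA.c1 k)).measurable
  set a : ℕ → ℝ × ℝ → ℝ := fun k p => dx (v k) p - Gx p with ha
  set b : ℕ → ℝ × ℝ → ℝ := fun k p => dy (v k) p - Gy p with hb
  set c : ℕ → ℝ × ℝ → ℝ := fun k p => v k p - u p with hc
  have ma : ∀ k, Measurable (a k) := fun k => (mdx k).sub hA.mx
  have mb : ∀ k, Measurable (b k) := fun k => (mdy k).sub hA.my
  have mc : ∀ k, Measurable (c k) := fun k => (mv k).sub hA.mu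
  have la := l1_of_l2 ϕ a ma R S hSR (hA.cx R)
  have lb := l1_of_l2 ϕ b mb R S hSR (hA.cy R)
  have lc := l1_of_l2 ϕ c mc R S hSR (hA.cu R)
  set f : ℕ → ℝ → ℝ≥0∞ := fun k ρ =>
    EL ϕ x₀ (ϕ x₀) L (a k) (b k) ρ + EL ϕ x₀ (ϕ x₀) L (c k) (c k) ρ with hf
  have mf : ∀ k, Measurable (f k) := fun k =>
    (hT ϕ K hϕ (a k) (b k) (ma k) (mb k) x₀).1.add (hT ϕ K hϕ (c k) (c k) (mc k) (mc k) x₀).1
  have hfl : Tendsto (fun k => ∫⁻ ρ in Ioo 0 ρ₀, f k ρ) atTop (𝓝 0) := by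
    have h1 : ∀ k, ∫⁻ ρ in Ioo 0 ρ₀, f k ρ ≤
        2 * ((∫⁻ p in Om ϕ ∩ S, ‖a k p‖ₑ) + ∫⁻ p in Om ϕ ∩ S, ‖b k p‖ₑ) +
        2 * ((∫⁻ p in Om ϕ ∩ S, ‖c k p‖ₑ) + ∫⁻ p in Om ϕ ∩ S, ‖c k p‖ₑ) := by
      intro k
      have e1 := hT ϕ K hϕ (a k) (b k) (ma k) (mb k) x₀
      have e2 := hT ϕ K hϕ (c k) (c k) (mc k) (mc k) x₀
      rw [hf]
      simp only
      rw [lintegral_add_left e1.1]
      refine add_le_add ?_ ?_
      · refine (e1.2 ρ₀ hρ₀).trans_eq ?_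
        rw [lintegral_add_left (by have := ma k; fun_prop)]
      · refine (e2.2 ρ₀ hρ₀).trans_eq ?_
        rw [lintegral_add_left (by have := mc k; fun_prop)]
    have h2 : Tendsto (fun k => 2 * ((∫⁻ p in Om ϕ ∩ S, ‖a k p‖ₑ) + ∫⁻ p in Om ϕ ∩ S, ‖b k p‖ₑ) +
        2 * ((∫⁻ p in Om ϕ ∩ S, ‖c k p‖ₑ) + ∫⁻ p in Om ϕ ∩ S, ‖c k p‖ₑ)) atTop (𝓝 0) := by
      have e1 := ENNReal.Tendsto.const_mul (la.add lb) (a := 2) (Or.inr (by norm_num))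
      have e2 := ENNReal.Tendsto.const_mul (lc.add lc) (a := 2) (Or.inr (by norm_num))
      have := e1.add e2
      simpa using this
    exact tendsto_of_tendsto_of_tendsto_of_le_of_le tendsto_const_nhds h2 (fun _ => zero_le) h1
  -- a subsequence with almost everywhere convergence
  obtain ⟨s, hs, hs2⟩ : ∃ s : ℕ → ℕ, StrictMono s ∧
      ∀ j, ∫⁻ ρ in Ioo 0 ρ₀, f (s j) ρ < (1 / 2 : ℝ≥0∞) ^ j := by
    refine extraction_forall_of_eventually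
      (P := fun j k => ∫⁻ ρ in Ioo 0 ρ₀, f k ρ < (1 / 2 : ℝ≥0∞) ^ j) fun j => ?_
    exact hfl.eventually (gt_mem_nhds (ENNReal.pow_pos (by simp) j))
  have hae : ∀ᵐ ρ ∂(volume.restrict (Ioo 0 ρ₀)), Tendsto (fun j => f (s j) ρ) atTop (𝓝 0) := by
    have h1 : ∫⁻ ρ in Ioo 0 ρ₀, ∑' j, f (s j) ρ ≠ ⊤ := by
      rw [lintegral_tsum fun j => (mf (s j)).aemeasurable]
      refine ((ENNReal.tsum_le_tsum fun j => (hs2 j).le).trans_lt ?_).ne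
      rw [ENNReal.tsum_geometric]
      rw [ENNReal.inv_lt_top]
      simp
    have h2 := ae_lt_top (Measurable.tsum fun j => mf (s j)) h1
    filter_upwards [h2] with ρ hρ
    exact ENNReal.tendsto_atTop_zero_of_tsum_ne_top hρ.ne
  -- choice of the radius
  set δ : ℝ := ε / 8 with hδ
  have hδ0 : 0 < δ := by positivity
  have gx := grad_l2 ϕ (fun k => dx (v k)) (fun k => dx_cont _ (hA.c1 k)) Gx hA.mx R S hSR (hA.cx R)
  have gy := grad_l2 ϕ (fun k => dy (v k)) (fun k => dy_cont _ (hA.c1 k)) Gy hA.my R S hSR (hA.cy R)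
  have gxy : ∫⁻ p in Om ϕ ∩ Bx x₀ (ϕ x₀) (K + 1) ρ₀, (‖Gx p‖ₑ ^ 2 + ‖Gy p‖ₑ ^ 2) ≠ ⊤ := by
    rw [lintegral_add_left (by have := hA.mx; fun_prop)]
    exact ENNReal.add_ne_top.2 ⟨gx, gy⟩
  have hvol := hC ϕ K hϕ Gx Gy hA.mx hA.my x₀ ρ₀ hρ₀ gxy (ENNReal.ofReal δ)
    (ENNReal.ofReal_pos.2 hδ0)
  obtain ⟨ρ, hρ1, hρ2⟩ : ∃ ρ ∈ {ρ ∈ Ioo 0 ρ₀ | EL ϕ x₀ (ϕ x₀) (K + 1) Gx Gy ρ < ENNReal.ofReal δ},
      Tendsto (fun j => f (s j) ρ) atTop (𝓝 0) := by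
    by_contra hno
    push Not at hno
    apply hvol
    have h1 : {ρ ∈ Ioo 0 ρ₀ | EL ϕ x₀ (ϕ x₀) (K + 1) Gx Gy ρ < ENNReal.ofReal δ} ⊆
        {ρ | ¬ (ρ ∈ Ioo 0 ρ₀ → Tendsto (fun j => f (s j) ρ) atTop (𝓝 0))} := by
      intro ρ hρ h
      exact hno ρ hρ (h hρ.1)
    rw [ae_restrict_iff' measurableSet_Ioo] at hae
    exact measure_mono_null h1 hae
  obtain ⟨hρI, hρE⟩ := hρ1
  have hρ0 : 0 < ρ := hρI.1
  -- the constants
  have key : ∀ᶠ j in atTop, ∃ t ∈ Icc (0:ℝ) 1,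
      ∀ p ∈ frontier (Bx x₀ (ϕ x₀) (K + 1) ρ) ∩ Oc ϕ, |v (s j) p - t| ≤ 3 * δ := by
    have e1 := hρ2.eventually (gt_mem_nhds (ENNReal.ofReal_pos.2 hδ0))
    have e2 := hρ2.eventually (gt_mem_nhds
      (show (0:ℝ≥0∞) < ENNReal.ofReal δ * ENNReal.ofReal (2 * ρ) from
        ENNReal.mul_pos (ENNReal.ofReal_pos.2 hδ0).ne' (ENNReal.ofReal_pos.2 (by positivity)).ne'))
    filter_upwards [e1, e2] with j hj1 hj2
    obtain ⟨x, hx, hx2⟩ : ∃ x ∈ Ioo (x₀ - ρ) (x₀ + ρ), |c (s j) (x, ϕ x₀ + L * ρ)| ≤ δ := by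
      by_contra hno
      push Not at hno
      have h1 : ENNReal.ofReal δ * ENNReal.ofReal (2 * ρ) ≤
          ∫⁻ x in Ioo (x₀ - ρ) (x₀ + ρ), ‖c (s j) (x, ϕ x₀ + L * ρ)‖ₑ := by
        calc ENNReal.ofReal δ * ENNReal.ofReal (2 * ρ) =
              ∫⁻ _ in Ioo (x₀ - ρ) (x₀ + ρ), ENNReal.ofReal δ := by
              rw [setLIntegral_const, Real.volume_Ioo]
              congr 2; ring
          _ ≤ _ := by
              refine setLIntegral_mono' measurableSet_Ioo fun x hx => ?_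
              rw [← ofReal_norm_eq_enorm]
              exact ENNReal.ofReal_le_ofReal (hno x hx).le
      have h2 : ∫⁻ x in Ioo (x₀ - ρ) (x₀ + ρ), ‖c (s j) (x, ϕ x₀ + L * ρ)‖ₑ ≤ f (s j) ρ := by
        rw [hf]
        simp only
        unfold EL
        refine le_add_left (le_add_right (le_add_left le_rfl))
      exact absurd (h1.trans h2) (not_le.2 hj2)
    have hin : (x, ϕ x₀ + L * ρ) ∈ Om ϕ := by
      show ϕ x < ϕ x₀ + L * ρ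
      have h1 := hϕ.dist_le_mul x x₀
      rw [Real.dist_eq, Real.dist_eq] at h1
      have h2 : |x - x₀| ≤ ρ := abs_le.2 ⟨by linarith [hx.1], by linarith [hx.2]⟩
      have h3 := le_abs_self (ϕ x - ϕ x₀)
      have h4 : (K:ℝ) * |x - x₀| ≤ K * ρ := mul_le_mul_of_nonneg_left h2 K.coe_nonneg
      rw [hL]
      nlinarith
    refine ⟨u (x, ϕ x₀ + L * ρ), hu _ hin, fun p hp => ?_⟩
    have h5 := hP ϕ K hϕ (v (s j)) (hA.c1 (s j)) x₀ ρ hρ0 p hp x ⟨hx.1.le, hx.2.le⟩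
    have h6 : EL ϕ x₀ (ϕ x₀) (K + 1) (dx (v (s j))) (dy (v (s j))) ρ ≤
        ENNReal.ofReal (2 * δ) := by
      have h7 := EL_le_add ϕ x₀ (ϕ x₀) (K + 1) Gx Gy (a (s j)) (b (s j)) (dx (v (s j)))
        (dy (v (s j))) ρ hA.mx hA.my
        (fun p => by
          have : dx (v (s j)) p = Gx p + a (s j) p := by rw [ha]; ring
          rw [this]; exact enorm_add_le _ _)
        (fun p => by
          have : dy (v (s j)) p = Gy p + b (s j) p := by rw [hb]; ring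
          rw [this]; exact enorm_add_le _ _)
      have h8 : EL ϕ x₀ (ϕ x₀) (K + 1) (a (s j)) (b (s j)) ρ ≤ ENNReal.ofReal δ := by
        refine le_trans ?_ hj1.le
        rw [hf]
        exact le_add_right le_rfl
      calc _ ≤ _ := h7
        _ ≤ ENNReal.ofReal δ + ENNReal.ofReal δ := add_le_add hρE.le h8
        _ = ENNReal.ofReal (2 * δ) := by
          rw [← ENNReal.ofReal_add hδ0.le hδ0.le]; congr 1; ring
    have h9 : |v (s j) p - v (s j) (x, ϕ x₀ + L * ρ)| ≤ 2 * δ :=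
      (ENNReal.ofReal_le_ofReal_iff (by positivity)).1 (h5.trans h6)
    have h10 : |v (s j) (x, ϕ x₀ + L * ρ) - u (x, ϕ x₀ + L * ρ)| ≤ δ := hx2
    have := abs_sub_le (v (s j) p) (v (s j) (x, ϕ x₀ + L * ρ)) (u (x, ϕ x₀ + L * ρ))
    linarith
  -- compactness
  classical
  set t : ℕ → ℝ := fun j => if h : ∃ t ∈ Icc (0:ℝ) 1,
      ∀ p ∈ frontier (Bx x₀ (ϕ x₀) (K + 1) ρ) ∩ Oc ϕ, |v (s j) p - t| ≤ 3 * δ then h.choose
      else 0 with ht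
  have ht1 : ∀ j, t j ∈ Icc (0:ℝ) 1 := by
    intro j
    rw [ht]
    simp only
    split_ifs with h
    · exact h.choose_spec.1
    · exact ⟨le_rfl, zero_le_one⟩
  have ht2 : ∀ᶠ j in atTop, ∀ p ∈ frontier (Bx x₀ (ϕ x₀) (K + 1) ρ) ∩ Oc ϕ,
      |v (s j) p - t j| ≤ 3 * δ := by
    filter_upwards [key] with j hj
    rw [ht]
    simp only
    rw [dif_pos hj]
    exact hj.choose_spec.2
  obtain ⟨c₀, hc₀, τ, hτ, hτ2⟩ := isCompact_Icc.tendsto_subseq ht1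
  refine ⟨ρ, hρI, s ∘ τ, hs.comp hτ, c₀, hc₀, ?_⟩
  have e3 := hτ.tendsto_atTop.eventually ht2
  have e4 : ∀ᶠ i in atTop, |t (τ i) - c₀| < δ := by
    have := (Metric.tendsto_nhds.1 hτ2) δ hδ0
    simpa [Real.dist_eq] using this
  filter_upwards [e3, e4] with i hi1 hi2 p hp
  have h1 := hi1 p hp
  have := abs_sub_le (v (s (τ i)) p) (t (τ i)) c₀
  simp only [Function.comp_apply]
  rw [hδ] at *
  linarith

end Pool.Agent.W349.RB
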